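import Pool.Agent.Lib.MP_9e6b46_al.LU.Main

set_option autoImplicit false

namespace Pool.Agent.Results.MP_9e6b46_al.AllRational

open Pool.Agent.Lib.MP_9e6b46_al

theorem result :
    (∀ x : ℚ, -4 < x → x < 4 → (x : ℝ) ∈ RQ) ∧ closure RQ = Set.Icc (-4) 4 := by
  refine ⟨fun x h1 h2 => ?_, LU.closure_RQ⟩
  have h3 : -4 < (x : ℝ) := by exact_mod_cast h1
  have h4 : (x : ℝ) < 4 := by exact_mod_cast h2
  exact ⟨⟨x, rfl⟩, h3, h4, LU.nonFree_rat x h3 h4⟩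

end Pool.Agent.Results.MP_9e6b46_al.AllRational
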